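import Pool.Agent.Helper87.PS.KBaux
import Pool.Agent.Helper49.PS.RI

/-!
# MP_8013d7_co (full answer): module KB, many toggles
-/

set_option autoImplicit false

namespace PS

open SimpleGraph Finset Pool.Agent.Helper37.PathSys
open Pool.Agent.Helper37.PathSys.PathSystem

open scoped Classical

noncomputable section

variable {n : ℕ} {G : SimpleGraph (Fin n)} {P : PathSystem G}

theorem many_toggles (hP : P.Consistent) {ε : ℝ} (hε : 0 < ε) (hR : RR ε P) (h : ℕ)
    (hh : 64 * √ε * ((Hs (dirG P)).card : ℝ) ≤ h) (B : ℝ)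
    (hB : ((univ.filter fun p : Pr n => 32 * (((NF (dirG P) p.1.1 ∩ NF (dirG P) p.1.2) ∩
        Hs (dirG P)).card : ℝ) < h).card : ℝ) ≤ B) :
    2 ^ n * (((Quad P).card : ℝ) / 16 - 8 * √ε * ((Hs (dirG P)).card : ℝ) ^ 2 * (n : ℝ) ^ 2 -
      2 * B * ((Hs (dirG P)).card : ℝ) ^ 2) ≤
      ∑ W : Finset (Fin n), ((TT W P).card : ℝ) :=
  many_toggles_aux hε (fun W z x => rigid hP hε hR W z x) h hh B hB

end

end PS
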