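import Pool.Agent.Helper21.PS.Basic

/-!
# MP_8013d7_co (full answer): module KB, many toggles (with the rigidity lemma as hypothesis)
-/

set_option autoImplicit false

namespace PS

open SimpleGraph Finset Pool.Agent.Helper37.PathSys
open Pool.Agent.Helper37.PathSys.PathSystem

open scoped Classical

noncomputable section

namespace KB

variable {n : ℕ}

lemma card_W {u v x y : Fin n} (h1 : u ≠ v) (h2 : x ≠ y) (h3 : u ≠ x) (h4 : v ≠ y)
    (h5 : u ≠ y) (h6 : v ≠ x) :
    16 * ((univ : Finset (Finset (Fin n))).filter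
      fun W => u ∈ W ∧ x ∈ W ∧ v ∉ W ∧ y ∉ W).card = 2 ^ n := by
  have e : ((univ : Finset (Finset (Fin n))).filter fun W => u ∈ W ∧ x ∈ W ∧ v ∉ W ∧ y ∉ W) =
      Icc ({u, x} : Finset (Fin n)) ({v, y} : Finset (Fin n))ᶜ := by
    ext W
    simp only [mem_filter, mem_univ, true_and, mem_Icc, insert_subset_iff,
      singleton_subset_iff]
    constructor
    · rintro ⟨a, b, c, d⟩
      refine ⟨⟨a, b⟩, ?_⟩
      intro t ht
      simp only [mem_compl, mem_insert, mem_singleton, not_or]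
      exact ⟨fun h => c (h ▸ ht), fun h => d (h ▸ ht)⟩
    · rintro ⟨⟨a, b⟩, c⟩
      refine ⟨a, b, ?_, ?_⟩
      · intro h
        have := c h
        simp at this
      · intro h
        have := c h
        simp at this
  have hsub : ({u, x} : Finset (Fin n)) ⊆ ({v, y} : Finset (Fin n))ᶜ := by
    intro t ht
    simp only [mem_insert, mem_singleton] at ht
    simp only [mem_compl, mem_insert, mem_singleton, not_or]
    rcases ht with rfl | rfl
    · exact ⟨h1, h5⟩
    · exact ⟨h6.symm, h2⟩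
  have c4 : ({u, x, v, y} : Finset (Fin n)).card = 4 := by
    rw [card_insert_of_notMem, card_insert_of_notMem, card_pair h4]
    · simp [h6.symm, h2]
    · simp [h1, h3, h5]
  have hn : 4 ≤ n := by
    have := card_le_univ ({u, x, v, y} : Finset (Fin n))
    rw [c4, Fintype.card_fin] at this
    exact this
  rw [e, card_Icc_finset hsub, card_compl, card_pair h4, card_pair h3, Fintype.card_fin]
  obtain ⟨k, rfl⟩ := Nat.exists_eq_add_of_le hn
  have : 4 + k - 2 - 2 = k := by omega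
  rw [this, pow_add]
  norm_num

/-- the bad pairs -/
def bad (F : SimpleGraph (Fin n)) (H : Finset (Fin n)) (R : Fin n → Fin n → Fin n → Prop)
    (t : ℝ) : Finset (Fin n × Fin n) :=
  univ.filter fun q => q.2 ∈ H ∧ F.Adj q.1 q.2 ∧
    t ≤ ((H.filter fun z => F.Adj q.1 z ∧ ¬ R q.1 z q.2).card : ℝ)

lemma bad_card (F : SimpleGraph (Fin n)) (H : Finset (Fin n))
    (R : Fin n → Fin n → Fin n → Prop) {ε : ℝ} (hε : 0 < ε)
    (hrig : ∀ z x : Fin n,
      ((univ.filter fun u => F.Adj u z ∧ F.Adj u x ∧ ¬ R u z x).card : ℝ) ≤ 4 * ε * n) :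
    ((bad F H R (√ε * H.card)).card : ℝ) ≤ 4 * √ε * H.card * n := by
  have hs : 0 < √ε := Real.sqrt_pos.2 hε
  have hss : √ε * √ε = ε := Real.mul_self_sqrt hε.le
  rcases H.eq_empty_or_nonempty with rfl | hH
  · have : bad F ∅ R (√ε * ((∅ : Finset (Fin n)).card : ℝ)) = ∅ := by
      unfold bad
      rw [filter_eq_empty_iff]
      intro q _ hq
      exact absurd hq.1 (notMem_empty _)
    rw [this]
    simp
  have hN : (0 : ℝ) < H.card := by exact_mod_cast card_pos.2 hH
  set b := bad F H R (√ε * H.card) with hb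
  let T : Finset (Fin n × Fin n × Fin n) := univ.filter fun t =>
    t.2.1 ∈ H ∧ t.2.2 ∈ H ∧ F.Adj t.1 t.2.1 ∧ F.Adj t.1 t.2.2 ∧ ¬ R t.1 t.2.2 t.2.1
  have hT1 : √ε * H.card * b.card ≤ (T.card : ℝ) := by
    let T' := T.filter fun t => (t.1, t.2.1) ∈ b
    have h1 : T'.card = ∑ q ∈ b, (T'.filter fun t => (t.1, t.2.1) = q).card :=
      card_eq_sum_card_fiberwise (fun t ht => (mem_filter.1 ht).2)
    have h2 : ∀ q ∈ b, √ε * H.card ≤ ((T'.filter fun t => (t.1, t.2.1) = q).card : ℝ) := by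
      intro q hq
      have hq' := (mem_filter.1 hq).2
      refine hq'.2.2.trans ?_
      norm_cast
      refine card_le_card_of_injOn (fun z => (q.1, q.2, z)) ?_ ?_
      · intro z hz
        simp only [coe_filter, Set.mem_ofPred_eq] at hz ⊢
        refine ⟨mem_filter.2 ⟨mem_filter.2 ⟨mem_univ _, hq'.1, hz.1, hq'.2.1, hz.2.1, hz.2.2⟩,
          hq⟩, trivial⟩
      · intro z _ z' _ h
        simpa using h
    have h3 : (b.card : ℝ) * (√ε * H.card) ≤ T'.card := by
      rw [h1]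
      push_cast
      rw [← nsmul_eq_mul]
      exact card_nsmul_le_sum _ _ _ h2
    have h4 : (T'.card : ℝ) ≤ T.card := by
      exact_mod_cast card_le_card (filter_subset _ _)
    linarith
  have hT2 : (T.card : ℝ) ≤ (H.card : ℝ) * H.card * (4 * ε * n) := by
    have h1 : T.card = ∑ q ∈ H ×ˢ H, (T.filter fun t => (t.2.1, t.2.2) = q).card :=
      card_eq_sum_card_fiberwise (fun t ht => by
        have := (mem_filter.1 ht).2
        exact mem_coe.2 (mem_product.2 ⟨this.1, this.2.1⟩))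
    have h2 : ∀ q ∈ H ×ˢ H, ((T.filter fun t => (t.2.1, t.2.2) = q).card : ℝ) ≤ 4 * ε * n := by
      rintro ⟨x, z⟩ _
      refine le_trans ?_ (hrig z x)
      norm_cast
      refine card_le_card_of_injOn (fun t => t.1) ?_ ?_
      · intro t ht
        simp only [coe_filter, Set.mem_ofPred_eq] at ht ⊢
        have h3 := (mem_filter.1 ht.1).2
        obtain ⟨rfl, rfl⟩ := Prod.mk.injEq .. ▸ ht.2
        exact ⟨mem_univ _, h3.2.2.2.1, h3.2.2.1, h3.2.2.2.2⟩
      · intro t ht t' ht' h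
        have e1 := (mem_filter.1 (mem_coe.1 ht)).2
        have e2 := (mem_filter.1 (mem_coe.1 ht')).2
        rw [← e2] at e1
        ext1
        · exact h
        · exact e1
    rw [h1]
    push_cast
    refine (sum_le_card_nsmul _ _ _ h2).trans ?_
    rw [card_product, nsmul_eq_mul]
    push_cast
    exact le_rfl
  have h5 : (√ε * H.card) * b.card ≤ (√ε * H.card) * (4 * √ε * H.card * n) := by
    calc (√ε * H.card) * b.card ≤ (H.card : ℝ) * H.card * (4 * ε * n) := hT1.trans hT2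
      _ = (√ε * H.card) * (4 * √ε * H.card * n) := by
        nth_rewrite 1 [← hss]
        ring
  exact le_of_mul_le_mul_left h5 (by positivity)

/-- the pairs of small codegree -/
def sm (F : SimpleGraph (Fin n)) (H : Finset (Fin n)) (h : ℕ) : Finset (Fin n × Fin n) :=
  univ.filter fun q => q.1 ≠ q.2 ∧ 32 * (((NF F q.1 ∩ NF F q.2) ∩ H).card : ℝ) < h

lemma sm_card (F : SimpleGraph (Fin n)) (H : Finset (Fin n)) (h : ℕ) {B : ℝ}
    (hB : ((univ.filter fun p : Pr n =>
      32 * (((NF F p.1.1 ∩ NF F p.1.2) ∩ H).card : ℝ) < h).card : ℝ) ≤ B) :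
    ((sm F H h).card : ℝ) ≤ 2 * B := by
  set S := univ.filter fun p : Pr n =>
      32 * (((NF F p.1.1 ∩ NF F p.1.2) ∩ H).card : ℝ) < h with hS
  have h1 : sm F H h ⊆ (S.image fun p => (p.1.1, p.1.2)) ∪ (S.image fun p => (p.1.2, p.1.1)) := by
    rintro ⟨u, v⟩ hq
    have hq' := (mem_filter.1 hq).2
    rcases lt_or_gt_of_ne hq'.1 with hlt | hlt
    · exact mem_union_left _ (mem_image.2 ⟨⟨(u, v), hlt⟩, mem_filter.2 ⟨mem_univ _, hq'.2⟩, rfl⟩)
    · refine mem_union_right _ (mem_image.2 ⟨⟨(v, u), hlt⟩, mem_filter.2 ⟨mem_univ _, ?_⟩, rfl⟩)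
      have := hq'.2
      rwa [inter_comm (NF F u)] at this
  have h2 : (sm F H h).card ≤ S.card + S.card :=
    (card_le_card h1).trans ((card_union_le _ _).trans (add_le_add card_image_le card_image_le))
  have h3 : ((sm F H h).card : ℝ) ≤ S.card + S.card := by exact_mod_cast h2
  linarith

end KB

open KB

variable {n : ℕ} {G : SimpleGraph (Fin n)} {P : PathSystem G}

/-- the quadruples split by `W` -/
def QW (W : Finset (Fin n)) (P : PathSystem G) :
    Finset (Fin n × Fin n × Fin n × Fin n) :=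
  (Quad P).filter fun q => q.1 ∈ W ∧ q.2.2.1 ∈ W ∧ q.2.1 ∉ W ∧ q.2.2.2 ∉ W

lemma KB.TT_lower {ε : ℝ} (hε : 0 < ε) (W : Finset (Fin n))
    (hrig : ∀ z x : Fin n, ((univ.filter fun u => (dirG P).Adj u z ∧ (dirG P).Adj u x ∧
      ¬ Rig W P u z x).card : ℝ) ≤ 4 * ε * n) (h : ℕ)
    (hh : 64 * √ε * ((Hs (dirG P)).card : ℝ) ≤ h) (B : ℝ)
    (hB : ((univ.filter fun p : Pr n => 32 * (((NF (dirG P) p.1.1 ∩ NF (dirG P) p.1.2) ∩
        Hs (dirG P)).card : ℝ) < h).card : ℝ) ≤ B) :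
    ((QW W P).card : ℝ) - 8 * √ε * ((Hs (dirG P)).card : ℝ) ^ 2 * (n : ℝ) ^ 2 -
      2 * B * ((Hs (dirG P)).card : ℝ) ^ 2 ≤ ((TT W P).card : ℝ) := by
  set F := dirG P with hF
  set H := Hs F with hH
  set b := bad F H (fun u z x => Rig W P u z x) (√ε * H.card) with hb
  have hbc : (b.card : ℝ) ≤ 4 * √ε * H.card * n := bad_card F H _ hε hrig
  have hsc : ((sm F H h).card : ℝ) ≤ 2 * B := sm_card F H h hB
  let A1 : Finset (Fin n × Fin n × Fin n × Fin n) :=
    (b ×ˢ ((univ : Finset (Fin n)) ×ˢ H)).image fun t => (t.1.1, t.2.1, t.1.2, t.2.2)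
  let A2 : Finset (Fin n × Fin n × Fin n × Fin n) :=
    (b ×ˢ ((univ : Finset (Fin n)) ×ˢ H)).image fun t => (t.2.1, t.1.1, t.2.2, t.1.2)
  let A3 : Finset (Fin n × Fin n × Fin n × Fin n) :=
    (sm F H h ×ˢ (H ×ˢ H)).image fun t => (t.1.1, t.1.2, t.2.1, t.2.2)
  have hsub : QW W P ⊆ TT W P ∪ (A1 ∪ (A2 ∪ A3)) := by
    rintro ⟨u, v, x, y⟩ hq
    have hq1 := (mem_filter.1 hq).1
    have hq2 := (mem_filter.1 hq).2
    have hq3 := (mem_filter.1 hq1).2
    simp only at hq2 hq3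
    obtain ⟨hxy, hux, hvy, -, -, -, -, -, huv, hxH, hyH, -⟩ := hq3
    by_cases c1 : (u, x) ∈ b
    · exact mem_union_right _ (mem_union_left _ (mem_image.2 ⟨((u, x), (v, y)),
        mem_product.2 ⟨c1, mem_product.2 ⟨mem_univ _, hyH⟩⟩, rfl⟩))
    by_cases c2 : (v, y) ∈ b
    · exact mem_union_right _ (mem_union_right _ (mem_union_left _ (mem_image.2
        ⟨((v, y), (u, x)), mem_product.2 ⟨c2, mem_product.2 ⟨mem_univ _, hxH⟩⟩, rfl⟩)))
    by_cases c3 : (u, v) ∈ sm F H h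
    · exact mem_union_right _ (mem_union_right _ (mem_union_right _ (mem_image.2
        ⟨((u, v), (x, y)), mem_product.2 ⟨c3, mem_product.2 ⟨hxH, hyH⟩⟩, rfl⟩)))
    refine mem_union_left _ (mem_filter.2 ⟨hq1, hq2.1, hq2.2.1, hq2.2.2.1, hq2.2.2.2, ?_⟩)
    have d1 : ((H.filter fun z => F.Adj u z ∧ ¬ Rig W P u z x).card : ℝ) < √ε * H.card := by
      by_contra hcon
      exact c1 (mem_filter.2 ⟨mem_univ _, hxH, hux, not_lt.1 hcon⟩)
    have d2 : ((H.filter fun z => F.Adj v z ∧ ¬ Rig W P v z y).card : ℝ) < √ε * H.card := by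
      by_contra hcon
      exact c2 (mem_filter.2 ⟨mem_univ _, hyH, hvy, not_lt.1 hcon⟩)
    have d3 : (h : ℝ) ≤ 32 * (((NF F u ∩ NF F v) ∩ H).card : ℝ) := by
      by_contra hcon
      exact c3 (mem_filter.2 ⟨mem_univ _, huv, not_le.1 hcon⟩)
    by_contra hcon
    push Not at hcon
    have hcov : (NF F u ∩ NF F v) ∩ H ⊆ (H.filter fun z => F.Adj u z ∧ ¬ Rig W P u z x) ∪
        (H.filter fun z => F.Adj v z ∧ ¬ Rig W P v z y) := by
      intro z hz
      rw [mem_inter, mem_inter] at hz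
      have z1 : F.Adj u z := (mem_filter.1 hz.1.1).2
      have z2 : F.Adj v z := (mem_filter.1 hz.1.2).2
      by_cases z3 : Rig W P u z x
      · exact mem_union_right _ (mem_filter.2 ⟨hz.2, z2, hcon z z1 z2 z3⟩)
      · exact mem_union_left _ (mem_filter.2 ⟨hz.2, z1, z3⟩)
    have d4 : (((NF F u ∩ NF F v) ∩ H).card : ℝ) ≤
        ((H.filter fun z => F.Adj u z ∧ ¬ Rig W P u z x).card : ℝ) +
        ((H.filter fun z => F.Adj v z ∧ ¬ Rig W P v z y).card : ℝ) := by
      exact_mod_cast (card_le_card hcov).trans (card_union_le _ _)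
    linarith
  have hA1 : (A1.card : ℝ) ≤ (4 * √ε * H.card * n) * (n * H.card) := by
    have h1 : A1.card ≤ b.card * (n * H.card) := by
      refine card_image_le.trans ?_
      rw [card_product, card_product, card_univ, Fintype.card_fin]
    have h2 : (A1.card : ℝ) ≤ b.card * (n * H.card) := by exact_mod_cast h1
    exact h2.trans (mul_le_mul_of_nonneg_right hbc (by positivity))
  have hA2 : (A2.card : ℝ) ≤ (4 * √ε * H.card * n) * (n * H.card) := by
    have h1 : A2.card ≤ b.card * (n * H.card) := by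
      refine card_image_le.trans ?_
      rw [card_product, card_product, card_univ, Fintype.card_fin]
    have h2 : (A2.card : ℝ) ≤ b.card * (n * H.card) := by exact_mod_cast h1
    exact h2.trans (mul_le_mul_of_nonneg_right hbc (by positivity))
  have hA3 : (A3.card : ℝ) ≤ (2 * B) * (H.card * H.card) := by
    have h1 : A3.card ≤ (sm F H h).card * (H.card * H.card) := by
      refine card_image_le.trans ?_
      rw [card_product, card_product]
    have h2 : (A3.card : ℝ) ≤ (sm F H h).card * (H.card * H.card) := by exact_mod_cast h1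
    exact h2.trans (mul_le_mul_of_nonneg_right hsc (by positivity))
  have hfin : ((QW W P).card : ℝ) ≤ (TT W P).card + (A1.card + (A2.card + A3.card)) := by
    have h1 : (QW W P).card ≤ (TT W P).card + (A1.card + (A2.card + A3.card)) :=
      (card_le_card hsub).trans ((card_union_le _ _).trans (add_le_add le_rfl
        ((card_union_le _ _).trans (add_le_add le_rfl (card_union_le _ _)))))
    exact_mod_cast h1
  nlinarith [hfin, hA1, hA2, hA3]

lemma KB.sum_QW (P : PathSystem G) :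
    ∑ W : Finset (Fin n), ((QW W P).card : ℝ) = 2 ^ n * (((Quad P).card : ℝ) / 16) := by
  have h1 : ∑ W : Finset (Fin n), (QW W P).card = ∑ q ∈ Quad P,
      ((univ : Finset (Finset (Fin n))).filter
        fun W => q.1 ∈ W ∧ q.2.2.1 ∈ W ∧ q.2.1 ∉ W ∧ q.2.2.2 ∉ W).card := by
    simp only [QW, card_filter]
    exact sum_comm
  have h2 : ∀ q ∈ Quad P, ((((univ : Finset (Finset (Fin n))).filter
      fun W => q.1 ∈ W ∧ q.2.2.1 ∈ W ∧ q.2.1 ∉ W ∧ q.2.2.2 ∉ W).card : ℕ) : ℝ) =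
      2 ^ n / 16 := by
    rintro ⟨u, v, x, y⟩ hq
    obtain ⟨hxy, hux, hvy, -, -, -, huy, hvx, huv, -⟩ := (mem_filter.1 hq).2
    have := card_W huv hxy.ne hux.ne hvy.ne huy hvx
    have h3 : (16 : ℝ) * (((univ : Finset (Finset (Fin n))).filter
      fun W => u ∈ W ∧ x ∈ W ∧ v ∉ W ∧ y ∉ W).card : ℕ) = 2 ^ n := by exact_mod_cast this
    simp only
    linarith
  have h3 : ∑ W : Finset (Fin n), ((QW W P).card : ℝ) = ∑ q ∈ Quad P,
      ((((univ : Finset (Finset (Fin n))).filter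
      fun W => q.1 ∈ W ∧ q.2.2.1 ∈ W ∧ q.2.1 ∉ W ∧ q.2.2.2 ∉ W).card : ℕ) : ℝ) := by
    exact_mod_cast h1
  rw [h3, sum_congr rfl h2, sum_const, nsmul_eq_mul]
  ring

theorem many_toggles_aux {ε : ℝ} (hε : 0 < ε)
    (hrig : ∀ (W : Finset (Fin n)) (z x : Fin n),
      ((univ.filter fun u => (dirG P).Adj u z ∧ (dirG P).Adj u x ∧
      ¬ Rig W P u z x).card : ℝ) ≤ 4 * ε * n) (h : ℕ)
    (hh : 64 * √ε * ((Hs (dirG P)).card : ℝ) ≤ h) (B : ℝ)
    (hB : ((univ.filter fun p : Pr n => 32 * (((NF (dirG P) p.1.1 ∩ NF (dirG P) p.1.2) ∩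
        Hs (dirG P)).card : ℝ) < h).card : ℝ) ≤ B) :
    2 ^ n * (((Quad P).card : ℝ) / 16 - 8 * √ε * ((Hs (dirG P)).card : ℝ) ^ 2 * (n : ℝ) ^ 2 -
      2 * B * ((Hs (dirG P)).card : ℝ) ^ 2) ≤
      ∑ W : Finset (Fin n), ((TT W P).card : ℝ) := by
  have h1 := sum_le_sum fun (W : Finset (Fin n)) (_ : W ∈ univ) =>
    KB.TT_lower hε W (hrig W) h hh B hB
  refine le_trans (le_of_eq ?_) h1
  rw [sum_sub_distrib, sum_sub_distrib, KB.sum_QW, sum_const, sum_const, card_univ,
    Fintype.card_finset, Fintype.card_fin, nsmul_eq_mul, nsmul_eq_mul]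
  push_cast
  ring

end

end PS
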