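import Pool.Agent.Helper18.PS.St3

/-!
Module SU3 of project PS: a numerical sum.
-/

set_option autoImplicit false

noncomputable section

namespace Pool.Agent.Helper87.PS

open Finset
open Nat (totient)
open Pool.Agent.Helper18.PS

private lemma tail3 (A : ℝ) (hA : 1 ≤ A) (m : ℕ) : ∑ j ∈ range m, 1 / (A + (j : ℝ)) ^ 2 ≤ 2 / A := by
  have key : ∀ m : ℕ, ∑ j ∈ range m, 1 / (A + (j : ℝ)) ^ 2 ≤ 2 / A - 2 / (A + m) := by
    intro m
    induction m with
    | zero => simp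
    | succ m ih =>
      rw [sum_range_succ]
      have h1 : 1 / (A + (m : ℝ)) ^ 2 ≤ 2 / (A + m) - 2 / (A + (m + 1 : ℕ)) := by
        push_cast
        have hm : (0 : ℝ) ≤ m := Nat.cast_nonneg _
        set t : ℝ := A + m with ht
        have hp1 : 1 ≤ t := by linarith
        have hp : 0 < t := by linarith
        have e2 : A + ((m : ℝ) + 1) = t + 1 := by rw [ht]; ring
        rw [e2, div_sub_div _ _ hp.ne' (by positivity), div_le_div_iff₀ (by positivity) (by positivity)]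
        nlinarith [mul_nonneg hp.le (sub_nonneg.2 hp1)]
      linarith
  have h1 := key m
  have h2 : 0 ≤ 2 / (A + (m : ℝ)) := by
    have hm : (0 : ℝ) ≤ m := Nat.cast_nonneg _
    exact div_nonneg (by norm_num) (by linarith)
  linarith

private lemma tail4 (K M : ℕ) : ∑ k ∈ Ico K M, 1 / (1 + (k : ℝ)) ^ 2 ≤ 2 / ((K : ℝ) + 1) := by
  rw [sum_Ico_eq_sum_range]
  have h := tail3 ((K : ℝ) + 1) (by linarith [(Nat.cast_nonneg K : (0 : ℝ) ≤ K)]) (M - K)
  refine le_trans (le_of_eq ?_) h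
  apply sum_congr rfl
  intro j _
  push_cast
  congr 2
  ring

private lemma aux1 {X y z : ℝ} (hX : 0 < X) (h : X / 2 ≤ y) (hz : 0 < z) :
    1 / (y ^ 2 * z) ≤ 4 / X ^ 2 * (1 / z) := by
  have hy : 0 < y := by linarith
  rw [div_mul_div_comm, div_le_div_iff₀ (by positivity) (by positivity)]
  have h5 : X ^ 2 ≤ 4 * y ^ 2 := by nlinarith
  have h6 : X ^ 2 * z ≤ (4 * y ^ 2) * z := mul_le_mul_of_nonneg_right h5 hz.le
  linarith

private lemma aux2 {X y w B : ℝ} (hX : 0 < X) (hB : 0 < B) (h : B / 2 ≤ y) (hw : X / 2 ≤ w) :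
    1 / (y ^ 2 * w ^ 2) ≤ 16 / X ^ 2 * (1 / B ^ 2) := by
  have hy : 0 < y := by linarith
  have hw0 : 0 < w := by linarith
  rw [div_mul_div_comm, div_le_div_iff₀ (by positivity) (by positivity)]
  have h5 : X ^ 2 ≤ 4 * w ^ 2 := by nlinarith
  have h6 : B ^ 2 ≤ 4 * y ^ 2 := by nlinarith
  have h7 : X ^ 2 * B ^ 2 ≤ (4 * w ^ 2) * (4 * y ^ 2) := mul_le_mul h5 h6 (by positivity) (by positivity)
  linarith

/-- SU3 -/
theorem hSU3 : StSU3 := by
  refine ⟨40, by norm_num, fun M hM => ?_⟩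
  have hM1 : (1 : ℝ) ≤ M := by exact_mod_cast hM
  set l := Real.log M with hl
  have hl0 : 0 ≤ l := Real.log_nonneg hM1
  set A := 1 + l with hAd
  have hA1 : 1 ≤ A := by linarith
  have hA0 : 0 < A := by linarith
  refine ⟨⌈Real.exp (A ^ (3 / 2 : ℝ))⌉₊, fun N hN => ?_⟩
  have hNe : Real.exp (A ^ (3 / 2 : ℝ)) ≤ N := by
    have h1 : ((⌈Real.exp (A ^ (3 / 2 : ℝ))⌉₊ : ℕ) : ℝ) ≤ (N : ℝ) := by exact_mod_cast hN
    exact le_trans (Nat.le_ceil _) h1
  set L := Real.log N with hLd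
  have hLA : A ^ (3 / 2 : ℝ) ≤ L := by
    have h1 := Real.log_le_log (Real.exp_pos _) hNe
    rwa [Real.log_exp] at h1
  have hA32 : 0 ≤ A ^ (3 / 2 : ℝ) := Real.rpow_nonneg hA0.le _
  have hL : 0 ≤ L := by linarith
  have hL23 : A ≤ L ^ (2 / 3 : ℝ) := by
    have h1 : (A ^ (3 / 2 : ℝ)) ^ (2 / 3 : ℝ) ≤ L ^ (2 / 3 : ℝ) := Real.rpow_le_rpow hA32 hLA (by norm_num)
    rw [← Real.rpow_mul hA0.le] at h1
    norm_num at h1
    exact h1
  set X := 1 + L with hXd
  have hX1 : 1 ≤ X := by linarith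
  have hX0 : 0 < X := by linarith
  have hl1 : (1 / 2 : ℝ) ≤ Real.log 2 := by linarith [Real.log_two_gt_d9]
  have hl2 : Real.log 2 ≤ 1 := by linarith [Real.log_two_lt_d9]
  have hlp : 0 < Real.log 2 := by linarith
  set R := ⌊(L - l) / Real.log 2⌋₊ with hR
  set K := ⌈L ^ (2 / 3 : ℝ)⌉₊ - 1 with hK
  set g : ℕ → ℝ := fun j => 1 / (A + (j : ℝ)) ^ 2 with hg
  have hg0 : ∀ j, 0 ≤ g j := fun j => by rw [hg]; positivity
  set T := (range (N + 1)).filter (fun k : ℕ => Real.exp (L ^ (2 / 3 : ℝ)) ≤ 2 ^ (k + 1) ∧ M * 2 ^ k ≤ N) with hT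
  have hkT : ∀ k ∈ T, l ≤ L - (k : ℝ) * Real.log 2 ∧ L ^ (2 / 3 : ℝ) ≤ k + 1 := by
    intro k hk
    rw [hT, mem_filter] at hk
    obtain ⟨_, h1, h2⟩ := hk
    constructor
    · have h3 : (M : ℝ) * (2 : ℝ) ^ k ≤ N := by exact_mod_cast h2
      have h4 := Real.log_le_log (by positivity) h3
      rw [Real.log_mul (by positivity) (by positivity), Real.log_pow] at h4
      linarith
    · have h3 := Real.log_le_log (Real.exp_pos _) h1
      rw [Real.log_exp, Real.log_pow] at h3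
      push_cast at h3
      have h4 : ((k : ℝ) + 1) * Real.log 2 ≤ (k + 1) * 1 := mul_le_mul_of_nonneg_left hl2 (by positivity)
      linarith
  have hkR : ∀ k ∈ T, k ≤ R := by
    intro k hk
    apply Nat.le_floor
    rw [le_div_iff₀ hlp]
    have := (hkT k hk).1
    linarith
  have hterm : ∀ k ∈ T, 1 / ((1 + L - k * Real.log 2) ^ 2 * (1 + (k : ℝ)) ^ 2) ≤
      4 / X ^ 2 * (1 / (1 + (k : ℝ)) ^ 2) + 16 / X ^ 2 * g (R - k) := by
    intro k hk
    obtain ⟨h1, h2⟩ := hkT k hk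
    have hkR' := hkR k hk
    have hk0 : (0 : ℝ) ≤ k := Nat.cast_nonneg _
    have hk1 : (0 : ℝ) < (1 + (k : ℝ)) ^ 2 := by positivity
    rcases le_or_gt ((k : ℝ) * Real.log 2) (L / 2) with hc | hc
    · have h3 : X / 2 ≤ 1 + L - k * Real.log 2 := by linarith
      have h4 : 1 / ((1 + L - k * Real.log 2) ^ 2 * (1 + (k : ℝ)) ^ 2) ≤ 4 / X ^ 2 * (1 / (1 + (k : ℝ)) ^ 2) :=
        aux1 hX0 h3 hk1
      have h5 : 0 ≤ 16 / X ^ 2 * g (R - k) := mul_nonneg (by positivity) (hg0 _)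
      linarith
    · have hkL : L / 2 ≤ k := by
        have : (k : ℝ) * Real.log 2 ≤ k * 1 := mul_le_mul_of_nonneg_left hl2 (by positivity)
        linarith
      have hRl : (R : ℝ) * Real.log 2 ≤ L - l := by
        have h3 : 0 ≤ (L - l) / Real.log 2 := by
          apply div_nonneg _ hlp.le
          have : 0 ≤ (k : ℝ) * Real.log 2 := by positivity
          linarith
        have h4 : (R : ℝ) ≤ (L - l) / Real.log 2 := Nat.floor_le h3
        rwa [le_div_iff₀ hlp] at h4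
      have hj : ((R - k : ℕ) : ℝ) = R - k := Nat.cast_sub hkR'
      have hj0 : (0 : ℝ) ≤ ((R - k : ℕ) : ℝ) := Nat.cast_nonneg _
      set j : ℝ := ((R - k : ℕ) : ℝ) with hjd
      have hb : (A + j) / 2 ≤ 1 + L - k * Real.log 2 := by
        have h7 : j * (1 / 2) ≤ j * Real.log 2 := mul_le_mul_of_nonneg_left hl1 hj0
        have h8 : j * Real.log 2 = R * Real.log 2 - k * Real.log 2 := by rw [hj]; ring
        linarith
      have hgj : g (R - k) = 1 / (A + j) ^ 2 := rfl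
      have h4 : 1 / ((1 + L - k * Real.log 2) ^ 2 * (1 + (k : ℝ)) ^ 2) ≤ 16 / X ^ 2 * g (R - k) := by
        rw [hgj]
        exact aux2 hX0 (by linarith) hb (by linarith)
      have h5 : 0 ≤ 4 / X ^ 2 * (1 / (1 + (k : ℝ)) ^ 2) := by positivity
      linarith
  have hS1 : ∑ k ∈ T, 1 / (1 + (k : ℝ)) ^ 2 ≤ 2 / A := by
    have hsub : T ⊆ Ico K (N + 1) := by
      intro k hk
      have h1 := (hkT k hk).2
      have h2 : ⌈L ^ (2 / 3 : ℝ)⌉₊ ≤ k + 1 := by
        apply Nat.ceil_le.2; push_cast; exact h1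
      rw [hT, mem_filter, mem_range] at hk
      rw [mem_Ico]
      exact ⟨by omega, hk.1⟩
    have h1 := sum_le_sum_of_subset_of_nonneg (f := fun k : ℕ => 1 / (1 + (k : ℝ)) ^ 2) hsub
      (fun k _ _ => by positivity)
    have h2 := tail4 K (N + 1)
    have hKL : A ≤ (K : ℝ) + 1 := by
      have h3 : ⌈L ^ (2 / 3 : ℝ)⌉₊ ≤ K + 1 := by omega
      have h4 : ((⌈L ^ (2 / 3 : ℝ)⌉₊ : ℕ) : ℝ) ≤ ((K + 1 : ℕ) : ℝ) := by exact_mod_cast h3
      push_cast at h4
      exact le_trans hL23 (le_trans (Nat.le_ceil _) h4)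
    have h3 : 2 / ((K : ℝ) + 1) ≤ 2 / A := div_le_div_of_nonneg_left (by norm_num) hA0 hKL
    linarith
  have hS2 : ∑ k ∈ T, g (R - k) ≤ 2 / A := by
    have hsub : T ⊆ range (R + 1) := fun k hk => mem_range.2 (by have := hkR k hk; omega)
    calc ∑ k ∈ T, g (R - k) ≤ ∑ k ∈ range (R + 1), g (R - k) :=
          sum_le_sum_of_subset_of_nonneg hsub (fun k _ _ => hg0 _)
      _ = ∑ j ∈ range (R + 1), g j := by
          have h := sum_range_reflect g (R + 1)
          rw [← h]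
          apply sum_congr rfl
          intro k _
          congr 1
      _ ≤ 2 / A := tail3 A hA1 (R + 1)
  calc ∑ k ∈ T, 1 / ((1 + L - k * Real.log 2) ^ 2 * (1 + (k : ℝ)) ^ 2)
      ≤ ∑ k ∈ T, (4 / X ^ 2 * (1 / (1 + (k : ℝ)) ^ 2) + 16 / X ^ 2 * g (R - k)) := sum_le_sum hterm
    _ = 4 / X ^ 2 * ∑ k ∈ T, 1 / (1 + (k : ℝ)) ^ 2 + 16 / X ^ 2 * ∑ k ∈ T, g (R - k) := by
        rw [sum_add_distrib, mul_sum, mul_sum]
    _ ≤ 4 / X ^ 2 * (2 / A) + 16 / X ^ 2 * (2 / A) := by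
        apply add_le_add
        · exact mul_le_mul_of_nonneg_left hS1 (by positivity)
        · exact mul_le_mul_of_nonneg_left hS2 (by positivity)
    _ = 40 / (A * X ^ 2) := by
        field_simp
        norm_num

end Pool.Agent.Helper87.PS
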