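import Pool.Agent.Helper18.PS.St2

/-!
Module SUM of project PS: a numerical sum.
-/

set_option autoImplicit false

noncomputable section

namespace Pool.Agent.Helper87.PS

open Finset
open Nat (totient)
open Pool.Agent.Helper18.PS

private lemma low {X b a : ℝ} (hX : 0 < X) (hb : X / 2 ≤ b) (ha : 0 ≤ a) (ha2 : a ≤ 2) :
    b ^ (-a) ≤ 4 * X ^ (-a) := by
  have h1 : b ^ (-a) ≤ (X / 2) ^ (-a) := Real.rpow_le_rpow_of_nonpos (by linarith) hb (by linarith)
  have h2 : (X / 2) ^ (-a) = X ^ (-a) * 2 ^ a := by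
    rw [Real.div_rpow hX.le (by norm_num), Real.rpow_neg (by norm_num : (0 : ℝ) ≤ 2), div_inv_eq_mul]
  have h3 : (2 : ℝ) ^ a ≤ 4 := by
    calc (2 : ℝ) ^ a ≤ 2 ^ (2 : ℝ) := Real.rpow_le_rpow_of_exponent_le (by norm_num) ha2
      _ = 4 := by norm_num
  have h4 : 0 ≤ X ^ (-a) := Real.rpow_nonneg hX.le _
  rw [h2] at h1
  nlinarith

private lemma tail (K M : ℕ) : ∑ k ∈ Ico K M, 1 / (1 + (k : ℝ)) ^ 2 ≤ 2 / ((K : ℝ) + 1) := by
  rcases le_or_gt M K with h | h
  · rw [Ico_eq_empty (by omega), sum_empty]; positivity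
  have key : ∀ m : ℕ, ∑ k ∈ Ico K (K + m), 1 / (1 + (k : ℝ)) ^ 2 ≤ 2 / ((K : ℝ) + 1) - 2 / ((K : ℝ) + m + 1) := by
    intro m
    induction m with
    | zero => simp
    | succ m ih =>
      rw [← add_assoc, sum_Ico_succ_top (by omega)]
      have h1 : 1 / (1 + ((K + m : ℕ) : ℝ)) ^ 2 ≤ 2 / ((K : ℝ) + m + 1) - 2 / ((K : ℝ) + (m + 1 : ℕ) + 1) := by
        push_cast
        have hp : (0 : ℝ) < (K : ℝ) + m + 1 := by positivity
        have hp1 : (1 : ℝ) ≤ (K : ℝ) + m + 1 := by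
          have : (0 : ℝ) ≤ (K : ℝ) + m := by positivity
          linarith
        set t : ℝ := (K : ℝ) + m + 1 with ht
        have e1 : 1 + ((K : ℝ) + m) = t := by rw [ht]; ring
        have e2 : (K : ℝ) + (m + 1) + 1 = t + 1 := by rw [ht]; ring
        rw [e1, e2, div_sub_div _ _ hp.ne' (by positivity), div_le_div_iff₀ (by positivity) (by positivity)]
        nlinarith [mul_nonneg hp.le (sub_nonneg.2 hp1)]
      linarith
  have h1 := key (M - K)
  rw [Nat.add_sub_of_le h.le] at h1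
  have h2 : 0 ≤ 2 / ((K : ℝ) + ((M - K : ℕ) : ℝ) + 1) := by positivity
  linarith

/-- SUM -/
theorem hSUM : StSUM := by
  intro a ha
  have ha0 : 0 ≤ a := by rcases ha with h | h | h <;> rw [h] <;> norm_num
  have ha1 : a ≤ 4 / 3 := by rcases ha with h | h | h <;> rw [h] <;> norm_num
  set f : ℕ → ℝ := fun j => ((j + 1 : ℕ) : ℝ) ^ (-(4 / 3 : ℝ)) with hf
  have hsum : Summable f := by
    have h := (Real.summable_nat_rpow (p := -(4 / 3 : ℝ))).2 (by norm_num)
    exact (summable_nat_add_iff 1).2 h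
  have hf0 : ∀ j, 0 ≤ f j := fun j => Real.rpow_nonneg (Nat.cast_nonneg _) _
  set K0 : ℝ := ∑' j, f j with hK0
  have hK0n : 0 ≤ K0 := tsum_nonneg hf0
  refine ⟨16 + 64 * K0, by positivity, fun N hN => ?_⟩
  have hN1 : (1 : ℝ) ≤ N := by exact_mod_cast hN
  set L := Real.log N with hLd
  have hL : 0 ≤ L := Real.log_nonneg hN1
  set X := 1 + L with hXd
  have hX1 : 1 ≤ X := by linarith
  have hX0 : 0 < X := by linarith
  have hl1 : (1 / 2 : ℝ) ≤ Real.log 2 := by linarith [Real.log_two_gt_d9]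
  have hl2 : Real.log 2 ≤ 1 := by linarith [Real.log_two_lt_d9]
  have hl0 : 0 < Real.log 2 := by linarith
  set M := ⌊L / Real.log 2⌋₊ with hM
  set K := ⌈L ^ (2 / 3 : ℝ)⌉₊ - 1 with hK
  set T := (range (N + 1)).filter (fun k : ℕ => Real.exp (L ^ (2 / 3 : ℝ)) ≤ 2 ^ (k + 1) ∧ 2 ^ k ≤ N) with hT
  have hkT : ∀ k ∈ T, (k : ℝ) * Real.log 2 ≤ L ∧ L ^ (2 / 3 : ℝ) ≤ k + 1 := by
    intro k hk
    rw [hT, mem_filter] at hk
    obtain ⟨_, h1, h2⟩ := hk
    constructor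
    · have h3 : (2 : ℝ) ^ k ≤ N := by exact_mod_cast h2
      have h4 := Real.log_le_log (by positivity) h3
      rwa [Real.log_pow] at h4
    · have h3 := Real.log_le_log (Real.exp_pos _) h1
      rw [Real.log_exp, Real.log_pow] at h3
      push_cast at h3
      have h4 : ((k : ℝ) + 1) * Real.log 2 ≤ (k + 1) * 1 := mul_le_mul_of_nonneg_left hl2 (by positivity)
      linarith
  have hkM : ∀ k ∈ T, k ≤ M := by
    intro k hk
    apply Nat.le_floor
    rw [le_div_iff₀ hl0]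
    exact (hkT k hk).1
  have hMX : (M : ℝ) + 1 ≤ 2 * X := by
    have h1 : (M : ℝ) ≤ L / Real.log 2 := Nat.floor_le (by positivity)
    have h2 : L / Real.log 2 ≤ 2 * L := by
      rw [div_le_iff₀ hl0]; nlinarith
    linarith
  have hMl : (M : ℝ) * Real.log 2 ≤ L := by
    have h1 : (M : ℝ) ≤ L / Real.log 2 := Nat.floor_le (by positivity)
    rwa [le_div_iff₀ hl0] at h1
  -- termwise
  have hterm : ∀ k ∈ T, (1 + L - k * Real.log 2) ^ (-a) / (1 + (k : ℝ)) ^ 2 ≤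
      4 * X ^ (-a) * (1 / (1 + (k : ℝ)) ^ 2) + 64 * X ^ (-(a + 2 / 3)) * f (M - k) := by
    intro k hk
    obtain ⟨h1, h2⟩ := hkT k hk
    have hkM' := hkM k hk
    have hp1 : 0 ≤ X ^ (-a) := Real.rpow_nonneg hX0.le _
    have hp2 : 0 ≤ X ^ (-(a + 2 / 3)) := Real.rpow_nonneg hX0.le _
    have hk1 : (0 : ℝ) < (1 + (k : ℝ)) ^ 2 := by positivity
    rcases le_or_gt ((k : ℝ) * Real.log 2) (L / 2) with hc | hc
    · have h3 := low hX0 (b := 1 + L - k * Real.log 2) (by linarith) ha0 (by linarith)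
      have h4 : (1 + L - k * Real.log 2) ^ (-a) / (1 + (k : ℝ)) ^ 2 ≤ 4 * X ^ (-a) * (1 / (1 + (k : ℝ)) ^ 2) := by
        rw [mul_one_div]
        exact div_le_div_of_nonneg_right h3 hk1.le
      have h5 : 0 ≤ 64 * X ^ (-(a + 2 / 3)) * f (M - k) := by
        have := hf0 (M - k); positivity
      linarith
    · -- second case
      have hkL : L / 2 ≤ k := by
        have : (k : ℝ) * Real.log 2 ≤ k * 1 := mul_le_mul_of_nonneg_left hl2 (by positivity)
        linarith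
      have hj : ((M - k + 1 : ℕ) : ℝ) = M - k + 1 := by
        push_cast [Nat.cast_sub hkM']; ring
      set j1 : ℝ := ((M - k + 1 : ℕ) : ℝ) with hj1
      have hj0 : 1 ≤ j1 := by
        have : 1 ≤ M - k + 1 := by omega
        rw [hj1]; exact_mod_cast this
      have hjX : j1 ≤ 2 * X := by
        have : (0 : ℝ) ≤ k := by positivity
        linarith
      have hb : j1 / 2 ≤ 1 + L - k * Real.log 2 := by
        have h6 : 0 ≤ (M : ℝ) - k := by
          have : (k : ℝ) ≤ M := by exact_mod_cast hkM'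
          linarith
        have h7 : ((M : ℝ) - k) * (1 / 2) ≤ ((M : ℝ) - k) * Real.log 2 := mul_le_mul_of_nonneg_left hl1 h6
        nlinarith
      have h8 := low (by linarith : 0 < j1) hb ha0 (by linarith)
      have h9 : j1 ^ (-a) ≤ f (M - k) * (4 * X ^ (4 / 3 - a)) := by
        have e1 : j1 ^ (-a) = j1 ^ (-(4 / 3 : ℝ)) * j1 ^ (4 / 3 - a) := by
          rw [← Real.rpow_add (by linarith)]; congr 1; ring
        have e2 : j1 ^ (4 / 3 - a) ≤ (2 * X) ^ (4 / 3 - a) := Real.rpow_le_rpow (by linarith) hjX (by linarith)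
        have e3 : (2 * X) ^ (4 / 3 - a) = 2 ^ (4 / 3 - a) * X ^ (4 / 3 - a) :=
          Real.mul_rpow (by norm_num) hX0.le
        have e4 : (2 : ℝ) ^ (4 / 3 - a) ≤ 4 := by
          calc (2 : ℝ) ^ (4 / 3 - a) ≤ 2 ^ (2 : ℝ) := Real.rpow_le_rpow_of_exponent_le (by norm_num) (by linarith)
            _ = 4 := by norm_num
        have e5 : 0 ≤ X ^ (4 / 3 - a) := Real.rpow_nonneg hX0.le _
        have e6 : j1 ^ (-(4 / 3 : ℝ)) = f (M - k) := rfl
        rw [e1, e6]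
        apply mul_le_mul_of_nonneg_left _ (hf0 _)
        rw [e3] at e2
        nlinarith
      have h10 : 1 / (1 + (k : ℝ)) ^ 2 ≤ 4 / X ^ 2 := by
        rw [div_le_div_iff₀ hk1 (by positivity)]
        have : X / 2 ≤ 1 + k := by linarith
        nlinarith
      have h11 : X ^ (4 / 3 - a) / X ^ 2 = X ^ (-(a + 2 / 3)) := by
        rw [← Real.rpow_natCast X 2, ← Real.rpow_sub hX0]
        congr 1; push_cast; ring
      have h12 : (1 + L - k * Real.log 2) ^ (-a) / (1 + (k : ℝ)) ^ 2 ≤ 64 * X ^ (-(a + 2 / 3)) * f (M - k) := by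
        rw [div_eq_mul_one_div]
        have h13 : (1 + L - k * Real.log 2) ^ (-a) ≤ 4 * (f (M - k) * (4 * X ^ (4 / 3 - a))) := by linarith
        calc (1 + L - k * Real.log 2) ^ (-a) * (1 / (1 + (k : ℝ)) ^ 2)
            ≤ (4 * (f (M - k) * (4 * X ^ (4 / 3 - a)))) * (4 / X ^ 2) := by
              apply mul_le_mul h13 h10 (by positivity)
              have := hf0 (M - k)
              have e5 : 0 ≤ X ^ (4 / 3 - a) := Real.rpow_nonneg hX0.le _
              positivity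
          _ = 64 * (X ^ (4 / 3 - a) / X ^ 2) * f (M - k) := by ring
          _ = 64 * X ^ (-(a + 2 / 3)) * f (M - k) := by rw [h11]
      have h14 : 0 ≤ 4 * X ^ (-a) * (1 / (1 + (k : ℝ)) ^ 2) := by positivity
      linarith
  have hp1 : 0 ≤ X ^ (-a) := Real.rpow_nonneg hX0.le _
  have hp2 : 0 ≤ X ^ (-(a + 2 / 3)) := Real.rpow_nonneg hX0.le _
  -- first sum
  have hS1 : ∑ k ∈ T, 1 / (1 + (k : ℝ)) ^ 2 ≤ 4 * X ^ (-(2 / 3 : ℝ)) := by
    have hsub : T ⊆ Ico K (N + 1) := by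
      intro k hk
      have h1 := (hkT k hk).2
      have h2 : ⌈L ^ (2 / 3 : ℝ)⌉₊ ≤ k + 1 := by
        apply Nat.ceil_le.2; push_cast; exact h1
      rw [hT, mem_filter, mem_range] at hk
      rw [mem_Ico]
      exact ⟨by omega, hk.1⟩
    have h1 := sum_le_sum_of_subset_of_nonneg (f := fun k : ℕ => 1 / (1 + (k : ℝ)) ^ 2) hsub
      (fun k _ _ => by positivity)
    have h2 := tail K (N + 1)
    have hKL : L ^ (2 / 3 : ℝ) ≤ (K : ℝ) + 1 := by
      have h3 : ⌈L ^ (2 / 3 : ℝ)⌉₊ ≤ K + 1 := by omega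
      have h4 : ((⌈L ^ (2 / 3 : ℝ)⌉₊ : ℕ) : ℝ) ≤ ((K + 1 : ℕ) : ℝ) := by exact_mod_cast h3
      push_cast at h4
      exact le_trans (Nat.le_ceil _) h4
    have hK1 : (1 : ℝ) ≤ (K : ℝ) + 1 := by
      have : (0 : ℝ) ≤ K := by positivity
      linarith
    have h5 : X ^ (2 / 3 : ℝ) ≤ 2 * ((K : ℝ) + 1) := by
      rcases le_or_gt L 1 with hc | hc
      · calc X ^ (2 / 3 : ℝ) ≤ 2 ^ (2 / 3 : ℝ) := Real.rpow_le_rpow hX0.le (by linarith) (by norm_num)
          _ ≤ 2 ^ (1 : ℝ) := Real.rpow_le_rpow_of_exponent_le (by norm_num) (by norm_num)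
          _ = 2 := by norm_num
          _ ≤ 2 * ((K : ℝ) + 1) := by linarith
      · calc X ^ (2 / 3 : ℝ) ≤ (2 * L) ^ (2 / 3 : ℝ) := Real.rpow_le_rpow hX0.le (by linarith) (by norm_num)
          _ = 2 ^ (2 / 3 : ℝ) * L ^ (2 / 3 : ℝ) := Real.mul_rpow (by norm_num) hL
          _ ≤ 2 * L ^ (2 / 3 : ℝ) := by
              apply mul_le_mul_of_nonneg_right _ (Real.rpow_nonneg hL _)
              calc (2 : ℝ) ^ (2 / 3 : ℝ) ≤ 2 ^ (1 : ℝ) := Real.rpow_le_rpow_of_exponent_le (by norm_num) (by norm_num)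
                _ = 2 := by norm_num
          _ ≤ 2 * ((K : ℝ) + 1) := by linarith
    have hXp : 0 < X ^ (2 / 3 : ℝ) := Real.rpow_pos_of_pos hX0 _
    have h6 : 2 / ((K : ℝ) + 1) ≤ 4 * X ^ (-(2 / 3 : ℝ)) := by
      rw [Real.rpow_neg hX0.le, ← div_eq_mul_inv, div_le_div_iff₀ (by linarith) hXp]
      linarith
    linarith
  -- second sum
  have hS2 : ∑ k ∈ T, f (M - k) ≤ K0 := by
    have hsub : T ⊆ range (M + 1) := fun k hk => mem_range.2 (by have := hkM k hk; omega)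
    calc ∑ k ∈ T, f (M - k) ≤ ∑ k ∈ range (M + 1), f (M - k) :=
          sum_le_sum_of_subset_of_nonneg hsub (fun k _ _ => hf0 _)
      _ = ∑ j ∈ range (M + 1), f j := by
          have h := sum_range_reflect f (M + 1)
          rw [← h]
          apply sum_congr rfl
          intro k _
          congr 1
      _ ≤ K0 := hsum.sum_le_tsum _ (fun j _ => hf0 j)
  calc ∑ k ∈ T, (1 + L - k * Real.log 2) ^ (-a) / (1 + (k : ℝ)) ^ 2
      ≤ ∑ k ∈ T, (4 * X ^ (-a) * (1 / (1 + (k : ℝ)) ^ 2) + 64 * X ^ (-(a + 2 / 3)) * f (M - k)) :=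
        sum_le_sum hterm
    _ = 4 * X ^ (-a) * ∑ k ∈ T, 1 / (1 + (k : ℝ)) ^ 2 + 64 * X ^ (-(a + 2 / 3)) * ∑ k ∈ T, f (M - k) := by
        rw [sum_add_distrib, mul_sum, mul_sum]
    _ ≤ 4 * X ^ (-a) * (4 * X ^ (-(2 / 3 : ℝ))) + 64 * X ^ (-(a + 2 / 3)) * K0 := by
        apply add_le_add
        · exact mul_le_mul_of_nonneg_left hS1 (by positivity)
        · exact mul_le_mul_of_nonneg_left hS2 (by positivity)
    _ = (16 + 64 * K0) * X ^ (-(a + 2 / 3)) := by
        have h1 : X ^ (-a) * X ^ (-(2 / 3 : ℝ)) = X ^ (-(a + 2 / 3)) := by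
          rw [← Real.rpow_add hX0]; congr 1; ring
        rw [← h1]; ring

end Pool.Agent.Helper87.PS
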